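import Pool.Agent.helper93.TV.Spec3

namespace Pool.Agent.helper93.TV

open BigOperators Finset

theorem GR_dim_unit {I V : Type} [Fintype I] [DecidableEq I] [Fintype V] [DecidableEq V]
    (D : FD I V) (d : I → ℝ) (hd : D.IsDim d) : d D.o = 1 := by
  have h := hd.2 D.o D.o
  have hs : (univ.filter fun v => D.s1 v = D.o ∧ D.s2 v = D.o) = {D.lam D.o} := by
    ext v
    simp only [mem_filter, mem_univ, true_and, mem_singleton]
    constructor
    · rintro ⟨h1, h2⟩
      have := D.lam_unique v h1
      rw [h2] at this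
      exact this
    · rintro rfl
      exact ⟨D.s1_lam _, D.s2_lam _⟩
  rw [hs, sum_singleton, D.t_lam] at h
  have h0 := hd.1 D.o
  nlinarith

theorem GR_du_unit {I V : Type} (D : FD I V) : D.du D.o = D.o := by
  have h := D.lam_unique (D.eta D.o) (D.s1_eta _)
  have h2 := D.t_eta D.o
  rw [h, D.s2_eta, D.t_lam] at h2
  exact h2

theorem GR_gen_mono {I V : Type} (D : FD I V) (S T : Set I) (h : S ⊆ T) (b : I)
    (hb : D.Gen S b) : D.Gen T b := by
  induction hb with
  | unit => exact FD.Gen.unit
  | mul v _ h2 ih => exact FD.Gen.mul v ih (h h2)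

theorem GR_gen_trans {I V : Type} (D : FD I V) (S T : Set I)
    (hm : ∀ v, D.Gen T (D.s1 v) → D.Gen T (D.s2 v) → D.Gen T (D.t v))
    (h : ∀ b ∈ S, D.Gen T b) (b : I) (hb : D.Gen S b) : D.Gen T b := by
  induction hb with
  | unit => exact FD.Gen.unit
  | mul v _ h2 ih => exact hm v ih (h _ h2)

theorem GR : GR_stmt := by
  intro hKD hCL hDB hTD I V _ _ _ _ D d z hR hd hz hgen
  classical
  have hdu : ∀ x, d (D.du x) = d x := (hKD I V D d hR hd).1
  have ho1 := GR_dim_unit D d hd
  have hduo := GR_du_unit D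
  -- the objects generated by X
  set gen : Finset I → Finset I := fun X => univ.filter fun b => D.Gen (X : Set I) b with hgendef
  have hmem : ∀ X b, b ∈ gen X ↔ D.Gen (X : Set I) b := by
    intro X b
    simp [hgendef]
  set P : Finset I → Prop := fun X => D.o ∈ X ∧ (∀ x ∈ X, D.du x ∈ X) ∧ (∀ x ∈ X, d x ≤ z) ∧
    ∃ k : ℕ, X.card ≤ 2 * k + 1 ∧ (2 : ℝ) ^ k ≤ ∑ b ∈ gen X, d b ^ 2 with hPdef
  have hP0 : P {D.o} := by
    refine ⟨mem_singleton_self _, ?_, ?_, 0, ?_, ?_⟩
    · intro x hx
      rw [mem_singleton] at hx ⊢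
      rw [hx, hduo]
    · intro x hx
      rw [mem_singleton] at hx
      rw [hx, ho1]
      exact hz
    · simp
    · have h1 : d D.o ^ 2 ≤ ∑ b ∈ gen {D.o}, d b ^ 2 :=
        single_le_sum (f := fun b => d b ^ 2) (fun i _ => sq_nonneg (d i))
          ((hmem _ _).2 FD.Gen.unit)
      rw [ho1] at h1
      simpa using h1
  have hne : (univ.filter fun X : Finset I => P X).Nonempty :=
    ⟨{D.o}, by rw [mem_filter]; exact ⟨mem_univ _, hP0⟩⟩
  obtain ⟨X, hX, hmax⟩ := exists_max_image (univ.filter fun X : Finset I => P X)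
    (fun X => (gen X).card) hne
  rw [mem_filter] at hX
  obtain ⟨-, hoX, hduX, hzX, k, hk1, hk2⟩ := hX
  have hduX' : ∀ x ∈ (X : Set I), D.du x ∈ (X : Set I) := fun x hx => by
    rw [mem_coe] at hx ⊢
    exact hduX x hx
  obtain ⟨hCm, hCd, hCx⟩ := hCL I V D (X : Set I) hR hduX'
  -- everything is generated
  have hall : ∀ b, D.Gen (X : Set I) b := by
    by_contra hcon
    have hb : ∃ b, d b ≤ z ∧ ¬ D.Gen (X : Set I) b := by
      by_contra hc
      push Not at hc
      apply hcon
      intro b
      exact GR_gen_trans D _ _ hCm (fun c hcz => hc c hcz) b (hgen b)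
    obtain ⟨b, hbz, hbX⟩ := hb
    set X' : Finset I := insert b (insert (D.du b) X) with hX'def
    have hsub : (X : Set I) ⊆ (X' : Set I) := by
      intro x hx
      rw [mem_coe] at hx ⊢
      rw [hX'def]
      exact mem_insert_of_mem (mem_insert_of_mem hx)
    have hduX'' : ∀ x ∈ X', D.du x ∈ X' := by
      intro x hx
      rw [hX'def, mem_insert, mem_insert] at hx
      rw [hX'def, mem_insert, mem_insert]
      rcases hx with rfl | rfl | hx
      · right; left; rfl
      · left; exact D.du_du b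
      · right; right; exact hduX x hx
    have hduX3 : ∀ x ∈ (X' : Set I), D.du x ∈ (X' : Set I) := fun x hx => by
      rw [mem_coe] at hx ⊢
      exact hduX'' x hx
    obtain ⟨hCm', hCd', hCx'⟩ := hCL I V D (X' : Set I) hR hduX3
    have hss : gen X ⊆ gen X' := by
      intro c hc
      rw [hmem] at hc ⊢
      exact GR_gen_mono D _ _ hsub c hc
    have hbX' : b ∈ gen X' := by
      rw [hmem]
      apply hCx'
      rw [mem_coe, hX'def]
      exact mem_insert_self _ _
    have hbn : b ∉ gen X := by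
      rw [hmem]
      exact hbX
    have hdb := hDB I V D d hR hd (gen X) (gen X') hss
      (fun s hs => by rw [hmem] at hs ⊢; exact hCd s hs)
      (fun v h1 h2 => by rw [hmem] at h1 h2 ⊢; exact hCm v h1 h2)
      (fun v h1 h2 => by rw [hmem] at h1 h2 ⊢; exact hCm' v h1 h2)
      ⟨b, hbX', hbn⟩
    have hPX' : P X' := by
      refine ⟨?_, hduX'', ?_, k + 1, ?_, ?_⟩
      · rw [hX'def]
        exact mem_insert_of_mem (mem_insert_of_mem hoX)
      · intro x hx
        rw [hX'def, mem_insert, mem_insert] at hx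
        rcases hx with rfl | rfl | hx
        · exact hbz
        · rw [hdu]; exact hbz
        · exact hzX x hx
      · have h1 : X'.card ≤ (insert (D.du b) X).card + 1 := card_insert_le _ _
        have h2 : (insert (D.du b) X).card ≤ X.card + 1 := card_insert_le _ _
        omega
      · rw [pow_succ]
        linarith
    have h3 := hmax X' (by rw [mem_filter]; exact ⟨mem_univ _, hPX'⟩)
    have h4 : (gen X).card < (gen X').card := by
      apply card_lt_card
      rw [ssubset_iff_of_subset hss]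
      exact ⟨b, hbX', hbn⟩
    omega
  refine ⟨X, k, hoX, hduX, hzX, hall, hk1, ?_⟩
  have h5 : ∑ b ∈ gen X, d b ^ 2 ≤ ∑ b, d b ^ 2 :=
    sum_le_sum_of_subset_of_nonneg (subset_univ _) (fun i _ _ => sq_nonneg (d i))
  have h6 := hTD I V D d hd
  have h7 : (2 : ℝ) ^ k ≤ (Fintype.card V : ℝ) ^ 2 := by linarith
  exact_mod_cast h7

end Pool.Agent.helper93.TV
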